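import Pool.Agent.Helper63.Oe.Uni
import Pool.Graph.R_seed8.TH94.MK.Main

/-!
Project Oe (helper63): the group of a quotient of a domain with parallel volume has one end.
-/

set_option autoImplicit false

open Set Filter Topology Metric
open Pool.Agent.W689.Mk Pool.Agent.TH94.MK

namespace Pool.Agent.Helper63.Oe

section
variable {E : Type} [NormedAddCommGroup E] [NormedSpace ℝ E] [FiniteDimensional ℝ E]
variable {Γ : Type} [Group Γ] {hol : Γ →* (E ≃ᵃ[ℝ] E)}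

/-- a locally finite union of compact sets is relatively closed -/
theorem rel_closed {Ω : Set E} (hΩ : IsOpen Ω)
    (hpd : ∀ C : Set E, IsCompact C → C ⊆ Ω → {γ : Γ | ∃ c ∈ C, hol γ c ∈ C}.Finite)
    {C0 : Set E} (hC0 : IsCompact C0) (hC0Ω : C0 ⊆ Ω) (A : Set Γ) {q : E} (hq : q ∈ Ω)
    (hqA : q ∈ closure (⋃ γ ∈ A, hol γ '' C0)) : q ∈ ⋃ γ ∈ A, hol γ '' C0 := by
  have : ProperSpace E := FiniteDimensional.proper_real E
  by_contra hcon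
  obtain ⟨ε, hε, hεΩ⟩ := Metric.nhds_basis_closedBall.mem_iff.1 (hΩ.mem_nhds hq)
  have hF := hpd (C0 ∪ closedBall q ε) (hC0.union (isCompact_closedBall _ _))
    (union_subset hC0Ω hεΩ)
  obtain ⟨F, hFd⟩ : ∃ F : Set Γ, F = {γ : Γ | ∃ c ∈ C0 ∪ closedBall q ε,
    hol γ c ∈ C0 ∪ closedBall q ε} := ⟨_, rfl⟩
  rw [← hFd] at hF
  have hD : IsCompact (⋃ γ ∈ F ∩ A, hol γ '' C0) :=
    (hF.subset inter_subset_left).isCompact_biUnion fun g _ => hC0.image (hol_cont g)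
  have hqD : q ∉ ⋃ γ ∈ F ∩ A, hol γ '' C0 := by
    intro h
    obtain ⟨γ, hγ, h⟩ := mem_iUnion₂.1 h
    exact hcon (mem_iUnion₂.2 ⟨γ, hγ.2, h⟩)
  have hN : closedBall q ε ∩ (⋃ γ ∈ F ∩ A, hol γ '' C0)ᶜ ∈ 𝓝 q :=
    inter_mem (closedBall_mem_nhds q hε) (hD.isClosed.isOpen_compl.mem_nhds hqD)
  obtain ⟨z, ⟨hz1, hz2⟩, hz3⟩ := mem_closure_iff_nhds.1 hqA _ hN
  obtain ⟨γ, hγ, c, hc, rfl⟩ := mem_iUnion₂.1 hz3
  apply hz2
  refine mem_iUnion₂.2 ⟨γ, ⟨?_, hγ⟩, c, hc, rfl⟩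
  rw [hFd]
  exact ⟨c, Or.inl hc, Or.inr hz1⟩

omit [FiniteDimensional ℝ E] in
/-- the last exit of a segment from the complement of an open set -/
theorem seg_front {Ω : Set E} (hΩ : IsOpen Ω) {z x0 : E} (hz : z ∉ Ω) (hx0 : x0 ∈ Ω) :
    ∃ t : ℝ, 0 ≤ t ∧ z + t • (x0 - z) ∈ closure Ω ∧ z + t • (x0 - z) ∉ Ω ∧
      ∀ s ∈ Icc 0 t, z + s • (x0 - z) ∉ Ω := by
  have hcont : Continuous fun t : ℝ => z + t • (x0 - z) := by fun_prop
  let T : Set ℝ := Icc 0 1 ∩ {t | z + t • (x0 - z) ∈ closure Ω}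
  have hT : IsCompact T := isCompact_Icc.inter_right (isClosed_closure.preimage hcont)
  have hTne : T.Nonempty := by
    refine ⟨1, ⟨zero_le_one, le_rfl⟩, ?_⟩
    show z + (1 : ℝ) • (x0 - z) ∈ closure Ω
    rw [one_smul, add_sub_cancel]
    exact subset_closure hx0
  obtain ⟨t, ht, hmin⟩ := hT.exists_isLeast hTne
  have hlt : ∀ s, 0 ≤ s → s < t → z + s • (x0 - z) ∉ closure Ω := by
    intro s hs hst h
    exact absurd (hmin (⟨⟨hs, hst.le.trans ht.1.2⟩, h⟩ : s ∈ T)) (not_le.2 hst)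
  have hp : z + t • (x0 - z) ∉ Ω := by
    intro h
    rcases eq_or_lt_of_le ht.1.1 with h0 | h0
    · rw [← h0, zero_smul, add_zero] at h
      exact hz h
    · have h1 : ∀ᶠ s in 𝓝[<] t, z + s • (x0 - z) ∈ Ω :=
        (hcont.continuousAt (x := t)).continuousWithinAt.eventually (hΩ.mem_nhds h)
      have h2 : ∀ᶠ s in 𝓝[<] t, s ∈ Ioo 0 t := Ioo_mem_nhdsLT h0
      obtain ⟨s, hs1, hs2⟩ := (h1.and h2).exists
      exact hlt s hs2.1.le hs2.2 (subset_closure hs1)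
  refine ⟨t, ht.1.1, ht.2, hp, fun s hs => ?_⟩
  rcases eq_or_lt_of_le hs.2 with h | h
  · rw [h]; exact hp
  · exact fun h' => hlt s hs.1 h (subset_closure h')

/-- the group is infinite -/
theorem infinite_group {Ω : Set E} (hE : 2 ≤ Module.finrank ℝ E) (hΩ : IsOpen Ω)
    (hne : Ω.Nonempty) (hinv : ∀ (γ : Γ), ∀ q ∈ Ω, hol γ q ∈ Ω)
    {C0 : Set E} (hC0 : IsCompact C0) (hC0Ω : C0 ⊆ Ω)
    (hcc : ∀ q ∈ Ω, ∃ γ : Γ, ∃ c ∈ C0, hol γ c = q) : Infinite Γ := by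
  have hnt : Nontrivial E := Module.nontrivial_of_finrank_pos (R := ℝ) (by omega)
  by_contra hcon
  rw [not_infinite_iff_finite] at hcon
  have h1 : Ω = ⋃ γ : Γ, hol γ '' C0 := by
    ext q
    constructor
    · intro hq
      obtain ⟨γ, c, hc, rfl⟩ := hcc q hq
      exact mem_iUnion.2 ⟨γ, c, hc, rfl⟩
    · intro hq
      obtain ⟨γ, c, hc, rfl⟩ := mem_iUnion.1 hq
      exact hinv γ c (hC0Ω hc)
  have h2 : IsCompact Ω := by
    rw [h1]
    exact isCompact_iUnion fun γ => hC0.image (hol_cont γ)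
  have h3 : Ω = univ := IsClopen.eq_univ ⟨h2.isClosed, hΩ⟩ hne
  rw [h3] at h2
  have : NoncompactSpace E := NormedSpace.noncompactSpace ℝ E
  exact noncompact_univ E h2

/-- **one end** -/
theorem one_end {Ω : Set E} (hE : 2 ≤ Module.finrank ℝ E) (hΩ : IsOpen Ω)
    (hne : Ω.Nonempty) (hconn : IsPreconnected Ω)
    (hinv : ∀ (γ : Γ), ∀ q ∈ Ω, hol γ q ∈ Ω)
    (hdet : ∀ γ : Γ, |LinearMap.det ((hol γ).linear : E →ₗ[ℝ] E)| = 1)
    (hpd : ∀ C : Set E, IsCompact C → C ⊆ Ω → {γ : Γ | ∃ c ∈ C, hol γ c ∈ C}.Finite)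
    {C0 : Set E} (hC0 : IsCompact C0) (hC0Ω : C0 ⊆ Ω)
    (hcc : ∀ q ∈ Ω, ∃ γ : Γ, ∃ c ∈ C0, hol γ c = q) (A : Set Γ)
    (hA : ∀ g : Γ, {γ ∈ A | γ * g ∉ A}.Finite) : A.Finite ∨ Aᶜ.Finite := by
  have : ProperSpace E := FiniteDimensional.proper_real E
  have hnt : Nontrivial E := Module.nontrivial_of_finrank_pos (R := ℝ) (by omega)
  have hrank : 1 < Module.rank ℝ E := by
    rw [← Module.finrank_eq_rank]
    exact_mod_cast (by omega : 1 < Module.finrank ℝ E)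
  obtain ⟨F, hFd⟩ : ∃ F : Set Γ, F = {γ : Γ | ∃ c ∈ C0, hol γ c ∈ C0} := ⟨_, rfl⟩
  have hF : F.Finite := by rw [hFd]; exact hpd C0 hC0 hC0Ω
  -- the compact set
  have hG : (⋃ g ∈ F, {γ ∈ A | γ * g ∉ A}).Finite := hF.biUnion fun g _ => hA g
  obtain ⟨K, hKd⟩ : ∃ K : Set E, K = ⋃ γ ∈ (⋃ g ∈ F, {γ ∈ A | γ * g ∉ A}), hol γ '' C0 := ⟨_, rfl⟩
  have hK : IsCompact K := by
    rw [hKd]
    exact hG.isCompact_biUnion fun g _ => hC0.image (hol_cont g)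
  have hKΩ : K ⊆ Ω := by
    rw [hKd]
    intro q hq
    obtain ⟨γ, _, c, hc, rfl⟩ := mem_iUnion₂.1 hq
    exact hinv γ c (hC0Ω hc)
  have hinter : ∀ q, q ∈ (⋃ γ ∈ A, hol γ '' C0) → q ∈ (⋃ γ ∈ Aᶜ, hol γ '' C0) → q ∈ K := by
    intro q h1 h2
    obtain ⟨γ, hγ, c, hc, rfl⟩ := mem_iUnion₂.1 h1
    obtain ⟨δ, hδ, c', hc', he⟩ := mem_iUnion₂.1 h2
    rw [hKd]
    refine mem_iUnion₂.2 ⟨γ, mem_iUnion₂.2 ⟨γ⁻¹ * δ, ?_, hγ, ?_⟩, c, hc, rfl⟩
    · rw [hFd]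
      refine ⟨c', hc', ?_⟩
      have h3 : hol (γ⁻¹ * δ) c' = c := by
        rw [map_mul]
        show hol γ⁻¹ (hol δ c') = c
        rw [he]
        have h4 : (hol γ⁻¹ * hol γ) c = c := by rw [← map_mul, inv_mul_cancel, map_one]; rfl
        exact h4
      rw [h3]; exact hc
    · rw [mul_inv_cancel_left]; exact hδ
  have hcover : ∀ q ∈ Ω, q ∈ (⋃ γ ∈ A, hol γ '' C0) ∨ q ∈ (⋃ γ ∈ Aᶜ, hol γ '' C0) := by
    intro q hq
    obtain ⟨γ, c, hc, rfl⟩ := hcc q hq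
    by_cases h : γ ∈ A
    · exact Or.inl (mem_iUnion₂.2 ⟨γ, h, c, hc, rfl⟩)
    · exact Or.inr (mem_iUnion₂.2 ⟨γ, h, c, hc, rfl⟩)
  -- the unbounded component of the complement of `K`
  obtain ⟨R0, hR0⟩ := hK.isBounded.subset_closedBall (0 : E)
  obtain ⟨R, hRd⟩ : ∃ R, R = max R0 0 := ⟨_, rfl⟩
  have hR : 0 ≤ R := by rw [hRd]; exact le_max_right _ _
  have hKR : ∀ x ∈ K, ‖x‖ ≤ R := by
    intro x hx
    have := hR0 hx
    rw [mem_closedBall_zero_iff] at this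
    rw [hRd]; exact this.trans (le_max_left _ _)
  have hFarK : {x : E | R < ‖x‖} ⊆ Kᶜ := fun x hx hxK => absurd (hKR x hxK) (not_le.2 hx)
  obtain ⟨y0, hy0⟩ : ∃ y0 : E, R < ‖y0‖ := NormedSpace.exists_lt_norm ℝ E R
  obtain ⟨V, hVd⟩ : ∃ V, V = connectedComponentIn Kᶜ y0 := ⟨_, rfl⟩
  have hVo : IsOpen V := by rw [hVd]; exact hK.isClosed.isOpen_compl.connectedComponentIn
  have hVc : IsPreconnected V := by rw [hVd]; exact isPreconnected_connectedComponentIn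
  have hVK : V ⊆ Kᶜ := by rw [hVd]; exact connectedComponentIn_subset _ _
  have hFarV : {x : E | R < ‖x‖} ⊆ V := by
    rw [hVd]
    exact (far_conn hrank hR).subset_connectedComponentIn hy0 hFarK
  have hV_of : ∀ S : Set E, IsPreconnected S → S ⊆ Kᶜ → ∀ y ∈ S, y ∈ V → S ⊆ V := by
    intro S hS hSK y hy hyV
    rw [hVd] at hyV ⊢
    rw [connectedComponentIn_eq hyV]
    exact hS.subset_connectedComponentIn hy hSK
  have hZV : ∀ z, z ∉ Ω → z ∈ V := by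
    intro z hz
    obtain ⟨x0, hx0⟩ := hne
    obtain ⟨t, ht, hp1, hp2, hs⟩ := seg_front hΩ hz hx0
    obtain ⟨u, hu, hline⟩ := line_of_boundary hΩ hinv hdet hpd hC0 hC0Ω hcc hp1 hp2
    -- the line
    have hL : (range fun s : ℝ => z + t • (x0 - z) + s • u) ⊆ V := by
      obtain ⟨s, hsR⟩ : ∃ s : ℝ, R < ‖z + t • (x0 - z) + s • u‖ := by
        have hu0 : 0 < ‖u‖ := norm_pos_iff.2 hu
        refine ⟨(R + 1 + ‖z + t • (x0 - z)‖) / ‖u‖, ?_⟩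
        have h1 : ‖((R + 1 + ‖z + t • (x0 - z)‖) / ‖u‖) • u‖ = R + 1 + ‖z + t • (x0 - z)‖ := by
          rw [norm_smul, Real.norm_eq_abs, abs_of_nonneg (by positivity),
            div_mul_cancel₀ _ hu0.ne']
        have h2 := norm_sub_norm_le (((R + 1 + ‖z + t • (x0 - z)‖) / ‖u‖) • u)
          (-(z + t • (x0 - z)))
        rw [norm_neg, h1, sub_neg_eq_add, add_comm (((R + 1 + ‖z + t • (x0 - z)‖) / ‖u‖) • u)] at h2
        linarith
      refine hV_of _ (isPreconnected_range (by fun_prop)) ?_ _ ⟨s, rfl⟩ (hFarV hsR)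
      rintro _ ⟨s, rfl⟩ hK'
      exact hline s (hKΩ hK')
    have hseg : ((fun s : ℝ => z + s • (x0 - z)) '' Icc 0 t) ⊆ V := by
      refine hV_of _ (isPreconnected_Icc.image _ (by fun_prop)) ?_ (z + t • (x0 - z))
        ⟨t, ⟨ht, le_rfl⟩, rfl⟩ (hL ⟨0, by simp⟩)
      rintro _ ⟨s, hs', rfl⟩ hK'
      exact hs s hs' (hKΩ hK')
    exact hseg ⟨0, ⟨le_rfl, ht⟩, by simp⟩
  have huniv : Ω ∪ V = univ := by
    refine eq_univ_of_forall fun z => ?_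
    by_cases h : z ∈ Ω
    · exact Or.inl h
    · exact Or.inr (hZV z h)
  have hW : IsPreconnected (Ω ∩ V) := unicoherent hΩ hVo hconn hVc huniv
  -- the compact core
  have hcore : IsCompact Vᶜ := by
    refine (isCompact_closedBall (0 : E) R).of_isClosed_subset hVo.isClosed_compl ?_
    intro x hx
    rw [mem_closedBall_zero_iff]
    by_contra h
    exact hx (hFarV (not_le.1 h))
  have hcoreΩ : Vᶜ ⊆ Ω := by
    intro x hx
    by_contra h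
    exact hx (hZV x h)
  obtain ⟨c0, hc0⟩ : C0.Nonempty := by
    obtain ⟨q, hq⟩ := hne
    obtain ⟨_, c, hc, _⟩ := hcc q hq
    exact ⟨c, hc⟩
  have hfin : ∀ B : Set Γ, (Ω ∩ V ∩ closure (⋃ γ ∈ B, hol γ '' C0)) = ∅ → B.Finite := by
    intro B hB
    refine (hpd (C0 ∪ Vᶜ) (hC0.union hcore) (union_subset hC0Ω hcoreΩ)).subset ?_
    intro γ hγ
    refine ⟨c0, Or.inl hc0, Or.inr ?_⟩
    intro hV'
    have : hol γ c0 ∈ Ω ∩ V ∩ closure (⋃ γ ∈ B, hol γ '' C0) :=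
      ⟨⟨hinv γ c0 (hC0Ω hc0), hV'⟩, subset_closure (mem_iUnion₂.2 ⟨γ, hγ, c0, hc0, rfl⟩)⟩
    rw [hB] at this
    exact this
  by_cases h1 : (Ω ∩ V ∩ closure (⋃ γ ∈ A, hol γ '' C0)).Nonempty
  · by_cases h2 : (Ω ∩ V ∩ closure (⋃ γ ∈ Aᶜ, hol γ '' C0)).Nonempty
    · exfalso
      obtain ⟨q, ⟨hq1, hq2⟩, hq3, hq4⟩ := isPreconnected_closed_iff.1 hW _ _ isClosed_closure
        isClosed_closure (fun q hq => (hcover q hq.1).imp (fun h => subset_closure h)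
          fun h => subset_closure h) h1 h2
      exact hVK hq2 (hinter q (rel_closed hΩ hpd hC0 hC0Ω A hq1 hq3)
        (rel_closed hΩ hpd hC0 hC0Ω Aᶜ hq1 hq4))
    · exact Or.inr (hfin _ (not_nonempty_iff_eq_empty.1 h2))
  · exact Or.inl (hfin _ (not_nonempty_iff_eq_empty.1 h1))

end

section
variable {X Γ E : Type} [NormedAddCommGroup E] [NormedSpace ℝ E] [FiniteDimensional ℝ E]
  [TopologicalSpace X] [T2Space X] [ConnectedSpace X] [Group Γ] [MulAction Γ X] {dev : X → E}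
  {hol : Γ →* (E ≃ᵃ[ℝ] E)}

theorem main (D : AffData X Γ E dev hol) (hinj : Function.Injective dev)
    (hE : 2 ≤ Module.finrank ℝ E) : Infinite Γ ∧ ∀ A : Set Γ,
      (∀ g : Γ, {γ ∈ A | γ * g ∉ A}.Finite) → A.Finite ∨ Aᶜ.Finite := by
  obtain ⟨C0, hC0, hC0r, hcc⟩ := range_cc D
  have ho := D.loc.isOpenMap.isOpen_range
  have hne : (range dev).Nonempty := range_nonempty dev
  refine ⟨infinite_group hE ho hne (range_inv D) hC0 hC0r hcc, fun A hA => ?_⟩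
  exact one_end hE ho hne (isPreconnected_range D.loc.continuous) (range_inv D) D.unimod
    (range_pd D hinj) hC0 hC0r hcc A hA

end

end Pool.Agent.Helper63.Oe
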