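import Mathlib

/-!
Project Oe (helper63): unicoherence of affine spaces.
-/

set_option autoImplicit false

open Set Filter Topology

namespace Pool.Agent.Helper63.Oe

/-- integer valued functions on connected sets -/
theorem int_const {X : Type} [TopologicalSpace X] {S : Set X} (hS : IsPreconnected S) {g : X → ℝ}
    (hg : ContinuousOn g S) (hz : ∀ x ∈ S, ∃ m : ℤ, g x = m) {a b : X} (ha : a ∈ S) (hb : b ∈ S) :
    g a = g b := by
  by_contra hne
  have key : ∀ a ∈ S, ∀ b ∈ S, g a < g b → False := by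
    intro a ha b hb hlt
    have h1 : OrdConnected (g '' S) := (hS.image g hg).ordConnected
    obtain ⟨m, hm⟩ := hz a ha
    obtain ⟨n, hn⟩ := hz b hb
    have hmn : m + 1 ≤ n := by
      rw [hm, hn] at hlt
      exact_mod_cast hlt
    have h2 : (m : ℝ) + 1 / 2 ∈ g '' S := by
      refine h1.out ⟨a, ha, rfl⟩ ⟨b, hb, rfl⟩ ⟨?_, ?_⟩
      · rw [hm]; linarith
      · rw [hn]
        have : (m : ℝ) + 1 ≤ n := by exact_mod_cast hmn
        linarith
    obtain ⟨c, hc, hc2⟩ := h2
    obtain ⟨l, hl⟩ := hz c hc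
    rw [hl] at hc2
    have h3 : (2 * l : ℝ) = 2 * m + 1 := by linarith
    have h4 : 2 * l = 2 * m + 1 := by exact_mod_cast h3
    omega
  rcases lt_or_gt_of_ne hne with h | h
  · exact key a ha b hb h
  · exact key b hb a ha h

theorem ite_cont {X Y : Type} [TopologicalSpace X] [TopologicalSpace Y] {A : Set X}
    [∀ y, Decidable (y ∈ A)] {f g : X → Y} {x : X} (hf : ContinuousAt f x) (hg : ContinuousAt g x)
    (h : f x = g x) : ContinuousAt (fun y => if y ∈ A then f y else g y) x := by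
  have h1 : (if x ∈ A then f x else g x) = f x := by
    split_ifs
    · rfl
    · exact h.symm
  show Tendsto _ _ (𝓝 (if x ∈ A then f x else g x))
  rw [h1]
  have hg' : Tendsto g (𝓝 x) (𝓝 (f x)) := by rw [h]; exact hg
  exact Tendsto.if' hf hg'

/-- **Unicoherence** -/
theorem unicoherent {E : Type} [NormedAddCommGroup E] [NormedSpace ℝ E] {U V : Set E}
    (hU : IsOpen U) (hV : IsOpen V) (hUc : IsPreconnected U) (hVc : IsPreconnected V)
    (hUV : U ∪ V = univ) : IsPreconnected (U ∩ V) := by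
  classical
  intro P Q hP hQ hcov hneP hneQ
  by_contra hne
  obtain ⟨A, hAdef⟩ : ∃ A, A = (U ∩ V) ∩ P := ⟨_, rfl⟩
  obtain ⟨B, hBdef⟩ : ∃ B, B = (U ∩ V) ∩ Q := ⟨_, rfl⟩
  have hAo : IsOpen A := by rw [hAdef]; exact (hU.inter hV).inter hP
  have hBo : IsOpen B := by rw [hBdef]; exact (hU.inter hV).inter hQ
  have hAB : ∀ x, x ∈ A → x ∉ B := by
    intro x hA hB
    rw [hAdef] at hA
    rw [hBdef] at hB
    exact hne ⟨x, hA.1, hA.2, hB.2⟩
  have hABc : ∀ x ∈ U ∩ V, x ∈ A ∨ x ∈ B := by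
    intro x hx
    rw [hAdef, hBdef]
    rcases hcov hx with h | h
    · exact Or.inl ⟨hx, h⟩
    · exact Or.inr ⟨hx, h⟩
  have hAU : ∀ x ∈ A, x ∈ U := fun x hx => by rw [hAdef] at hx; exact hx.1.1
  have hAV : ∀ x ∈ A, x ∈ V := fun x hx => by rw [hAdef] at hx; exact hx.1.2
  have hBU : ∀ x ∈ B, x ∈ U := fun x hx => by rw [hBdef] at hx; exact hx.1.1
  have hBV : ∀ x ∈ B, x ∈ V := fun x hx => by rw [hBdef] at hx; exact hx.1.2
  have hdisj : Disjoint Vᶜ Uᶜ := by
    rw [Set.disjoint_left]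
    intro x h1 h2
    have : x ∈ U ∪ V := by rw [hUV]; trivial
    rcases this with h | h
    · exact h2 h
    · exact h1 h
  obtain ⟨φ, h0, h1, -⟩ := exists_continuous_zero_one_of_isClosed hV.isClosed_compl
    hU.isClosed_compl hdisj
  have hφ0 : ∀ x, x ∉ V → φ x = 0 := fun x hx => h0 hx
  have hφ1 : ∀ x, x ∉ U → φ x = 1 := fun x hx => h1 hx
  have hφc : ∀ x, ContinuousAt φ x := fun x => φ.continuous.continuousAt
  -- continuity of functions defined by cases
  have ccase : ∀ {Y : Type} [TopologicalSpace Y] (f g : E → Y), Continuous f → Continuous g →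
      ∀ x, (x ∉ A → x ∉ B → f x = g x) → ContinuousAt (fun y => if y ∈ A then f y else g y) x := by
    intro Y _ f g hf hg x hx
    by_cases hxA : x ∈ A
    · refine (hf.continuousAt (x := x)).congr ?_
      filter_upwards [hAo.mem_nhds hxA] with y hy
      rw [if_pos hy]
    · by_cases hxB : x ∈ B
      · refine (hg.continuousAt (x := x)).congr ?_
        filter_upwards [hBo.mem_nhds hxB] with y hy
        rw [if_neg fun h => hAB y h hy]
      · exact ite_cont hf.continuousAt hg.continuousAt (hx hxA hxB)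
  have hout : ∀ x, x ∉ A → x ∉ B → x ∉ U ∨ x ∉ V := by
    intro x hA hB
    by_contra hcon
    push Not at hcon
    rcases hABc x hcon with h | h
    · exact hA h
    · exact hB h
  have hone : ((1 : ℝ) : AddCircle (1 : ℝ)) = 0 := AddCircle.coe_period 1
  -- the map to the circle
  let f : E → AddCircle (1 : ℝ) := fun x => if x ∈ A then ((φ x : ℝ) : AddCircle (1 : ℝ)) else 0
  have hf : Continuous f := by
    rw [continuous_iff_continuousAt]
    intro x
    refine ccase (fun x => ((φ x : ℝ) : AddCircle (1 : ℝ))) (fun _ => 0)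
      ((AddCircle.continuous_mk' 1).comp φ.continuous) continuous_const x ?_
    intro hA hB
    rcases hout x hA hB with h | h
    · show ((φ x : ℝ) : AddCircle (1 : ℝ)) = 0
      rw [hφ1 x h, hone]
    · show ((φ x : ℝ) : AddCircle (1 : ℝ)) = 0
      rw [hφ0 x h]
      exact AddCircle.coe_zero 1
  obtain ⟨e0, he0⟩ : ∃ e0 : ℝ, ((e0 : ℝ) : AddCircle (1 : ℝ)) = f 0 :=
    QuotientAddGroup.mk_surjective (f 0)
  obtain ⟨θ, ⟨-, hθ⟩, -⟩ := (AddCircle.isCoveringMap_coe (1 : ℝ)).existsUnique_continuousMap_lifts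
    (⟨f, hf⟩ : C(E, AddCircle (1 : ℝ))) 0 e0 he0
  have hθ' : ∀ x, ((θ x : ℝ) : AddCircle (1 : ℝ)) = f x := fun x => congrFun hθ x
  have hint : ∀ r : ℝ, ((r : ℝ) : AddCircle (1 : ℝ)) = 0 → ∃ m : ℤ, r = m := by
    intro r hr
    obtain ⟨m, hm⟩ := (AddCircle.coe_eq_zero_iff 1).1 hr
    exact ⟨m, by rw [← hm]; simp⟩
  -- the functions on `U` and `V`
  obtain ⟨⟨a, haP⟩, ⟨b, hbQ⟩⟩ := And.intro hneP hneQ
  have ha : a ∈ A := by rw [hAdef]; exact haP
  have hb : b ∈ B := by rw [hBdef]; exact hbQ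
  have hbA : b ∉ A := fun h => hAB b h hb
  have hgU := int_const (S := U) hUc (g := fun y => if y ∈ A then θ y - φ y else θ y)
    (fun x hx => (ccase _ _ (θ.continuous.sub φ.continuous) θ.continuous x (by
      intro hA hB
      show θ x - φ x = θ x
      rw [hφ0 x ((hout x hA hB).resolve_left fun h => h hx), sub_zero])).continuousWithinAt)
    (by
      intro x hx
      apply hint
      by_cases hA : x ∈ A
      · rw [if_pos hA, AddCircle.coe_sub, hθ']
        show (if x ∈ A then ((φ x : ℝ) : AddCircle (1 : ℝ)) else 0) - _ = 0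
        rw [if_pos hA, sub_self]
      · rw [if_neg hA, hθ']
        show (if x ∈ A then ((φ x : ℝ) : AddCircle (1 : ℝ)) else 0) = 0
        rw [if_neg hA]) (hAU a ha) (hBU b hb)
  have hgV := int_const (S := V) hVc (g := fun y => if y ∈ A then θ y - φ y + 1 else θ y)
    (fun x hx => (ccase _ _ ((θ.continuous.sub φ.continuous).add continuous_const) θ.continuous x
      (by
      intro hA hB
      show θ x - φ x + 1 = θ x
      rw [hφ1 x ((hout x hA hB).resolve_right fun h => h hx), sub_add_cancel])).continuousWithinAt)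
    (by
      intro x hx
      apply hint
      by_cases hA : x ∈ A
      · rw [if_pos hA, AddCircle.coe_add, AddCircle.coe_sub, hθ', hone, add_zero]
        show (if x ∈ A then ((φ x : ℝ) : AddCircle (1 : ℝ)) else 0) - _ = 0
        rw [if_pos hA, sub_self]
      · rw [if_neg hA, hθ']
        show (if x ∈ A then ((φ x : ℝ) : AddCircle (1 : ℝ)) else 0) = 0
        rw [if_neg hA]) (hAV a ha) (hBV b hb)
  simp only [if_pos ha, if_neg hbA] at hgU hgV
  linarith

/-- the complement of a ball is connected -/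
theorem far_conn {E : Type} [NormedAddCommGroup E] [NormedSpace ℝ E] (h : 1 < Module.rank ℝ E)
    {R : ℝ} (hR : 0 ≤ R) : IsPreconnected {x : E | R < ‖x‖} := by
  have h1 : IsPreconnected ((Ioi R) ×ˢ Metric.sphere (0 : E) 1) :=
    isPreconnected_Ioi.prod (isPreconnected_sphere h 0 1)
  have h2 := h1.image (fun p : ℝ × E => p.1 • p.2) (by fun_prop)
  have h3 : (fun p : ℝ × E => p.1 • p.2) '' ((Ioi R) ×ˢ Metric.sphere (0 : E) 1) =
      {x : E | R < ‖x‖} := by
    ext x
    constructor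
    · rintro ⟨⟨t, v⟩, ⟨ht, hv⟩, rfl⟩
      have ht' : R < t := ht
      have hv' : ‖v‖ = 1 := by simpa using hv
      show R < ‖t • v‖
      rw [norm_smul, hv', mul_one, Real.norm_eq_abs, abs_of_pos (hR.trans_lt ht')]
      exact ht'
    · intro hx
      have hx' : R < ‖x‖ := hx
      have hx0 : 0 < ‖x‖ := hR.trans_lt hx'
      refine ⟨(‖x‖, ‖x‖⁻¹ • x), ⟨hx', ?_⟩, ?_⟩
      · rw [mem_sphere_zero_iff_norm, norm_smul, norm_inv, norm_norm, inv_mul_cancel₀ hx0.ne']
      · show ‖x‖ • ‖x‖⁻¹ • x = x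
        rw [smul_smul, mul_inv_cancel₀ hx0.ne', one_smul]
  rwa [h3] at h2

end Pool.Agent.Helper63.Oe
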